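import Pool.Agent.H66.ER2.Targets
import Pool.Agent.H66.ER2.Lib

set_option autoImplicit false

namespace Pool.Agent.H61.ER2

open Pool.Agent.H48.ER Pool.Agent.H52.ER2 Pool.Agent.H66.ER2

variable {V : Type} {G : SimpleGraph V}

/-- pyramids given by three paths -/
theorem pyr3 (hPYR : T_PYR) (hN : NOH G) {c b0 b1 b2 : V} {m0 m1 m2 : ℕ} {R0 R1 R2 : Set V}
    (h0 : IP G m0 c b0 R0) (h1 : IP G m1 c b1 R1) (h2 : IP G m2 c b2 R2)
    (p0 : 1 ≤ m0) (p1 : 2 ≤ m1) (p2 : 2 ≤ m2)
    (e01 : ∀ u ∈ R0, ∀ w ∈ R1, u ≠ c → w ≠ c → u ≠ w ∧ (G.Adj u w ↔ u = b0 ∧ w = b1))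
    (e02 : ∀ u ∈ R0, ∀ w ∈ R2, u ≠ c → w ≠ c → u ≠ w ∧ (G.Adj u w ↔ u = b0 ∧ w = b2))
    (e12 : ∀ u ∈ R1, ∀ w ∈ R2, u ≠ c → w ≠ c → u ≠ w ∧ (G.Adj u w ↔ u = b1 ∧ w = b2)) :
    False := by
  have sw : ∀ {A B : Set V} {x y : V},
      (∀ u ∈ A, ∀ w ∈ B, u ≠ c → w ≠ c → u ≠ w ∧ (G.Adj u w ↔ u = x ∧ w = y)) →
      ∀ u ∈ B, ∀ w ∈ A, u ≠ c → w ≠ c → u ≠ w ∧ (G.Adj u w ↔ u = y ∧ w = x) := by
    intro A B x y h u hu w hw h1 h2
    obtain ⟨h3, h4⟩ := h w hw u hu h2 h1
    exact ⟨h3.symm, by rw [SimpleGraph.adj_comm, h4, and_comm]⟩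
  refine hPYR V G c ![b0, b1, b2] ![m0, m1, m2] ![R0, R1, R2] hN ?_ ?_ ?_ ?_
  · intro i
    fin_cases i
    · exact h0
    · exact h1
    · exact h2
  · intro i
    fin_cases i
    · exact p0
    · exact (by omega : 1 ≤ m1)
    · exact (by omega : 1 ≤ m2)
  · intro i j hij h
    have q1 : m1 ≠ 1 := by omega
    have q2 : m2 ≠ 1 := by omega
    fin_cases i <;> fin_cases j <;>
      first
      | exact hij rfl
      | exact q1 h.1
      | exact q1 h.2
      | exact q2 h.1
      | exact q2 h.2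
  · intro i j hij
    fin_cases i <;> fin_cases j <;>
      first
      | exact absurd rfl hij
      | exact e01
      | exact e02
      | exact e12
      | exact sw e01
      | exact sw e02
      | exact sw e12

theorem pf_AS5 (hPYR : T_PYR) : T_AS5 := by
  classical
  intro V G l n m i j a1 c a2 b2 a3 b3 v g g' D P Q R1 R2 hN _ hA hV hH hg
  subst hg
  obtain ⟨hcy, hipD, hl, hdis, ha12, ha13, hon, -⟩ := hA
  obtain ⟨-, hvD, hvH, hvc, hta, htb, hnc⟩ := hV
  obtain ⟨hip1, hip2, hij, hun, hd12, hadj, hnb, hpos⟩ := hH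
  have haP : g ∈ P := hcy.ipP.left_mem
  have hbP : b2 ∈ P := hcy.ipP.right_mem
  have haQ : a3 ∈ Q := hcy.ipQ.left_mem
  have hbQ : b3 ∈ Q := hcy.ipQ.right_mem
  have hPQ : ∀ u ∈ P, ∀ w ∈ Q, u ≠ w := fun u hu w hw h =>
    Set.disjoint_left.1 hcy.dis hu (h ▸ hw)
  have hn1 : 1 ≤ n := hcy.hn.pos
  have hm1 : 1 ≤ m := hcy.hm.pos
  have hab2 : g ≠ b2 := hcy.ipP.ne hn1
  have hab3 : a3 ≠ b3 := hcy.ipQ.ne hm1
  rcases hpos with ⟨-, -, h, -⟩ | ⟨k, S, hS, hRS, hdRS, hR2, hik, hjk⟩ | ⟨k, S, hS, hRS, -⟩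
  · exact hab2 h
  swap
  · exact hPQ g haP g (hRS ▸ Or.inr hS.left_mem) rfl
  -- the path `P` starts with the edge `g g'`
  have hi0 : i = 0 := by
    by_contra h
    exact hip1.ne (by omega) rfl
  subst hi0
  have hR1 : R1 = {g} := (hip1.eq_of_zero).2
  subst hR1
  have hSP : ∀ u ∈ S, u ∈ P := fun u hu => hRS ▸ Or.inr hu
  have hgS : g ∉ S := Set.disjoint_singleton_left.1 hdRS
  have hg'S : g' ∈ S := hS.left_mem
  have hb2S : b2 ∈ S := hS.right_mem
  have hSR2 : ∀ u ∈ S, u ∈ R2 := fun u hu => hR2 ▸ Or.inr hu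
  have hQR2 : ∀ u ∈ Q, u ∈ R2 := fun u hu => hR2 ▸ Or.inl hu
  have hgg' : G.Adj g g' := (hadj g rfl g' (hSR2 _ hg'S)).2 (Or.inr ⟨rfl, rfl⟩)
  have hcg : G.Adj c g := (hnb g (Or.inl haP)).2 (Or.inl rfl)
  have hcg' : G.Adj c g' := (hnb g' (Or.inl (hSP _ hg'S))).2 (Or.inr rfl)
  have hvg : ¬ G.Adj v g := fun h => hnc g (Or.inr (Or.inl haP)) h hcg
  have hvg' : ¬ G.Adj v g' := fun h => hnc g' (Or.inr (Or.inl (hSP _ hg'S))) h hcg'
  have hv13 : G.Adj v a1 ∧ G.Adj v a3 := by
    rcases hta with h | h | h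
    · exact absurd h.2 hvg
    · exact h
    · exact absurd h.1 hvg
  obtain ⟨hva1, hva3⟩ := hv13
  have hca1 : ¬ G.Adj c a1 := hnc a1 (Or.inl rfl) hva1
  have ha1D : a1 ∈ D := hipD.left_mem
  have hcD : c ∈ D := hipD.right_mem
  have hDH : ∀ u ∈ D, ∀ w ∈ P ∪ Q, u ≠ w := fun u hu w hw h =>
    Set.disjoint_left.1 hdis hu (h ▸ hw)
  have ha1c : a1 ≠ c := hipD.ne hl
  have hl2 : 2 ≤ l := by
    by_contra h
    have : l = 1 := by omega
    subst this
    exact hca1 ((hipD.adj_iff).2 rfl).symm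
  -- edges between `D` and `g`
  have hDg : ∀ u ∈ D, G.Adj g u → u = a1 ∨ u = c := by
    intro u hu h
    by_cases h1 : u = c
    · exact Or.inr h1
    · exact Or.inl (hon u hu h1 g (Or.inl haP) h.symm).1
  have hle : Even l := hN l a1 c g D hipD hl2 (fun h => hDH g h g (Or.inl haP) rfl) ha12.symm
    hcg.symm hDg
  -- edges between `S`, `b3` and the rest
  have hSb3 : ∀ u ∈ S, ∀ w ∈ Q, (G.Adj u w ↔ u = b2 ∧ w = b3) := by
    intro u hu w hw
    rw [hcy.adj u (hSP u hu) w hw]
    constructor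
    · rintro (h | h)
      · exact absurd (h.1 ▸ hu) hgS
      · exact h
    · exact Or.inr
  have hg'a3 : g' ≠ a3 := hPQ _ (hSP _ hg'S) _ haQ
  -- a general set `W3`
  have key : ∀ (t : ℕ) (w3 : V) (W3 : Set V), IP G t w3 g' W3 → 1 ≤ t →
      (∀ u ∈ W3, u ∈ S ∨ u = b3) → G.Adj v w3 → (∀ u ∈ W3, G.Adj v u → u = w3) →
      ((∀ u ∈ W3, ¬ G.Adj a3 u) ∨ Odd t) → False := by
    intro t w3 W3 hW ht hWS hvw hvW hfin
    have hWR2 : ∀ u ∈ W3, u ∈ R2 := fun u hu => by
      rcases hWS u hu with h | h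
      · exact hSR2 u h
      · exact hQR2 u (h ▸ hbQ)
    have hWH : ∀ u ∈ W3, u ∈ P ∪ Q := fun u hu => by
      rcases hWS u hu with h | h
      · exact Or.inl (hSP u h)
      · exact Or.inr (h ▸ hbQ)
    have hWa3 : ∀ u ∈ W3, u ≠ a3 := fun u hu => by
      rcases hWS u hu with h | h
      · exact hPQ u (hSP u h) a3 haQ
      · rw [h]; exact hab3.symm
    have hWg : ∀ u ∈ W3, g ≠ u := fun u hu h => Set.disjoint_left.1 hd12 rfl (h ▸ hWR2 u hu)
    have hgW : ∀ u ∈ W3, (G.Adj g u ↔ u = g') := by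
      intro u hu
      rw [hadj g rfl u (hWR2 u hu)]
      constructor
      · rintro (h | h)
        · exact absurd h.2 (hWa3 u hu)
        · exact h.2
      · intro h; exact Or.inr ⟨rfl, h⟩
    have hcW : ∀ u ∈ W3, (G.Adj c u ↔ u = g') := by
      intro u hu
      rw [hnb u (hWH u hu)]
      constructor
      · rintro (h | h)
        · exact absurd h.symm (hWg u hu)
        · exact h
      · exact Or.inr
    have hDW : ∀ u ∈ D, ∀ w ∈ W3, u ≠ w ∧ (G.Adj u w ↔ u = c ∧ w = g') := by
      intro u hu w hw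
      refine ⟨hDH u hu w (hWH w hw), ?_⟩
      constructor
      · intro h
        by_cases h1 : u = c
        · subst h1
          exact ⟨rfl, (hcW w hw).1 h⟩
        · rcases (hon u hu h1 w (hWH w hw) h).2 with h2 | h2
          · exact absurd h2.symm (hWg w hw)
          · exact absurd h2 (hWa3 w hw)
      · rintro ⟨rfl, rfl⟩
        exact hcg'
    have hvWm : v ∉ W3 := fun h => hvH (hWH v h)
    have hvg1 : v ≠ g := fun h => hvH (h ▸ Or.inl haP)
    have hvg1' : v ≠ g' := fun h => hvH (h ▸ Or.inl (hSP _ hg'S))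
    have hW3 : IP G (t + 1) v g' (insert v W3) := hW.cons hvWm (fun w hw =>
      ⟨hvW w hw, fun h => h ▸ hvw⟩)
    -- the last neighbour of `v` on `D`
    obtain ⟨d, hd, d0, dl, hD⟩ := IP.pf hipD
    let s := Nat.findGreatest (fun x => G.Adj v (d x)) l
    have hs1 : G.Adj v (d s) := Nat.findGreatest_spec (P := fun x => G.Adj v (d x))
      (Nat.zero_le l) (by show G.Adj v (d 0); rw [d0]; exact hva1)
    have hs2 : s ≤ l := Nat.findGreatest_le l
    have hs3 : ∀ x, s < x → x ≤ l → ¬ G.Adj v (d x) := fun x h1 h2 =>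
      Nat.findGreatest_is_greatest (P := fun x => G.Adj v (d x)) h1 h2
    have hs4 : s < l := by
      rcases Nat.lt_or_ge s l with h | h
      · exact h
      · exfalso
        have h2 : s = l := by omega
        rw [h2, dl] at hs1
        exact hvc hs1
    have hdD : ∀ x, x ≤ l → d x ∈ D := fun x hx => by rw [hD]; exact mem_seg (Nat.zero_le _) hx
    have hDw : IP G (l - s) (d s) c (seg d s l) := by
      have := hd.seg hs2 le_rfl
      rwa [dl] at this
    have hsub : ∀ u ∈ seg d s l, u ∈ D := by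
      rintro u ⟨x, -, hx, rfl⟩
      exact hdD x hx
    have hvDw : ∀ u ∈ seg d s l, G.Adj v u → u = d s := by
      rintro u ⟨x, hx1, hx, rfl⟩ h
      by_contra h2
      rcases Nat.lt_or_ge s x with h3 | h3
      · exact hs3 x h3 hx h
      · exact h2 (by rw [show x = s by omega])
    have hvDw' : v ∉ seg d s l := fun h => hvD (hsub v h)
    have hDw1 : IP G (l - s + 1) v c (insert v (seg d s l)) := hDw.cons hvDw' (fun w hw =>
      ⟨hvDw w hw, fun h => h ▸ hs1⟩)
    -- the pyramids with apex `v`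
    have pyrv : 1 ≤ s → ∀ x : V, G.Adj v x → G.Adj x g → x ∉ seg d s l → x ∉ W3 →
        (∀ u ∈ seg d s l, ¬ G.Adj x u) → (∀ u ∈ W3, ¬ G.Adj x u) → x ≠ g' → x ≠ c → False := by
      intro hs0 x hvx hxg hx1 hx2 hx3 hx4 hx5 hx6
      have hxg1 : x ≠ g := hxg.ne
      have hvx1 : v ≠ x := hvx.ne
      have q0 : IP G 2 v g (insert v {x, g}) := by
        refine (IP.edge hxg).cons ?_ ?_
        · rintro (h | h)
          · exact hvx1 h
          · exact hvg1 h
        · rintro w (h | h)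
          · rw [h]; exact ⟨fun _ => rfl, fun _ => hvx⟩
          · rw [Set.mem_singleton_iff.1 h]
            exact ⟨fun h2 => absurd h2 hvg, fun h2 => absurd h2.symm hxg1⟩
      refine pyr3 hPYR hN q0 hDw1 hW3 (by omega) (by omega) (by omega) ?_ ?_ ?_
      · rintro u (hu | hu | hu) w (hw | hw) h1 h2
        · exact absurd hu h1
        · exact absurd hu h1
        · exact absurd hw h2
        · rw [hu]
          refine ⟨fun h => hx1 (h ▸ hw), ?_⟩
          exact ⟨fun h => absurd h (hx3 w hw), fun h => absurd h.1 hxg1⟩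
        · exact absurd hw h2
        · rw [Set.mem_singleton_iff.1 hu]
          refine ⟨fun h => hDH w (hsub w hw) g (Or.inl haP) h.symm, ?_⟩
          constructor
          · intro h
            refine ⟨rfl, ?_⟩
            rcases hDg w (hsub w hw) h with h3 | h3
            · exfalso
              obtain ⟨y, hy1, hy2, rfl⟩ := hw
              have h5 : y = 0 := hd.inj y 0 hy2 (Nat.zero_le _) (h3.trans d0.symm)
              omega
            · exact h3
          · rintro ⟨-, h⟩
            rw [h]; exact hcg.symm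
      · rintro u (hu | hu | hu) w (hw | hw) h1 h2
        · exact absurd hu h1
        · exact absurd hu h1
        · exact absurd hw h2
        · rw [hu]
          refine ⟨fun h => hx2 (h ▸ hw), ?_⟩
          exact ⟨fun h => absurd h (hx4 w hw), fun h => absurd h.1 hxg1⟩
        · exact absurd hw h2
        · rw [Set.mem_singleton_iff.1 hu]
          refine ⟨hWg w hw, ?_⟩
          rw [hgW w hw]
          exact ⟨fun h => ⟨rfl, h⟩, fun h => h.2⟩
      · rintro u (hu | hu) w (hw | hw) h1 h2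
        · exact absurd hu h1
        · exact absurd hu h1
        · exact absurd hw h2
        · exact hDW u (hsub u hu) w hw
    have ha1W : ∀ u ∈ W3, a1 ≠ u ∧ ¬ G.Adj a1 u := fun u hu =>
      ⟨(hDW a1 ha1D u hu).1, fun h => ha1c (((hDW a1 ha1D u hu).2.1 h).1)⟩
    rcases Nat.lt_or_ge s 1 with hs0 | hs0
    · -- (1) `v` sees only `a1` on `D`
      have hs0' : s = 0 := by omega
      have hvD1 : ∀ u ∈ D, G.Adj v u → u = a1 := by
        intro u hu h
        rw [hD] at hu
        have h2 := hvDw u (by rw [hs0']; exact hu) h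
        rw [h2, hs0', d0]
      have q2 : IP G (t + 1 + 1) a1 g' (insert a1 (insert v W3)) := by
        refine hW3.cons ?_ ?_
        · rintro (h | h)
          · exact hva1.ne h.symm
          · exact (ha1W a1 h).1 rfl
        · rintro w (h | h)
          · rw [h]; exact ⟨fun _ => rfl, fun _ => hva1.symm⟩
          · exact ⟨fun h2 => absurd h2 (ha1W w h).2, fun h2 => absurd h (h2 ▸ hvWm)⟩
      refine pyr3 hPYR hN (IP.edge ha12) hipD q2 le_rfl hl2 (by omega) ?_ ?_ ?_
      · rintro u (hu | hu) w hw h1 h2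
        · exact absurd hu h1
        · rw [Set.mem_singleton_iff.1 hu]
          refine ⟨fun h => hDH w hw g (Or.inl haP) h.symm, ?_⟩
          constructor
          · intro h
            rcases hDg w hw h with h3 | h3
            · exact absurd h3 h2
            · exact ⟨rfl, h3⟩
          · rintro ⟨-, h⟩
            rw [h]; exact hcg.symm
      · rintro u (hu | hu) w (hw | hw | hw) h1 h2
        · exact absurd hu h1
        · exact absurd hu h1
        · exact absurd hu h1
        · exact absurd hw h2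
        · rw [Set.mem_singleton_iff.1 hu, hw]
          exact ⟨hvg1.symm, fun h => absurd h.symm hvg, fun h => absurd h.2 hvg1'⟩
        · rw [Set.mem_singleton_iff.1 hu]
          refine ⟨hWg w hw, ?_⟩
          rw [hgW w hw]
          exact ⟨fun h => ⟨rfl, h⟩, fun h => h.2⟩
      · rintro u hu w (hw | hw | hw) h1 h2
        · exact absurd hw h2
        · rw [hw]
          exact ⟨fun h => hvD (h ▸ hu), fun h => absurd (hvD1 u hu h.symm) h1,
            fun h => absurd h.2 hvg1'⟩
        · exact hDW u hu w hw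
    rcases Nat.lt_or_ge s 2 with hs22 | hs22
    · -- (3) `s = 1`
      have hs1' : s = 1 := by omega
      rcases hfin with hf | hf
      · refine pyrv hs0 a3 hva3 ?_ ?_ ?_ ?_ hf hg'a3.symm ?_
        · exact ((hcy.adj g haP a3 haQ).2 (Or.inl ⟨rfl, rfl⟩)).symm
        · intro h; exact hDH a3 (hsub a3 h) a3 (Or.inr haQ) rfl
        · intro h; exact hWa3 a3 h rfl
        · rintro u hu h
          by_cases h1 : u = c
          · subst h1
            rcases (hnb a3 (Or.inr haQ)).1 h.symm with h2 | h2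
            · exact hPQ g haP a3 haQ h2.symm
            · exact hg'a3 h2.symm
          · have h2 := (hon u (hsub u hu) h1 a3 (Or.inr haQ) h.symm).1
            obtain ⟨y, hy1, hy2, rfl⟩ := hu
            have h5 : y = 0 := hd.inj y 0 hy2 (Nat.zero_le _) (h2.trans d0.symm)
            omega
        · intro h; exact hDH c hcD a3 (Or.inr haQ) h.symm
      · -- the hole
        have hX : XE G (seg d s l) W3 c g' := fun u hu w hw => (hDW u (hsub u hu) w hw).2
        have hdX : Disjoint (seg d s l) W3 := Set.disjoint_left.2 fun u hu hu2 =>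
          (hDW u (hsub u hu) u hu2).1 rfl
        have h6 := hDw.append hW.rev hdX hX
        have h7 := hN _ _ _ v _ h6 (by omega) (by
          rintro (h | h)
          · exact hvDw' h
          · exact hvWm h) hs1 hvw (by
          rintro w (h | h) h8
          · exact Or.inl (hvDw w h h8)
          · exact Or.inr (hvW w h h8))
        obtain ⟨x, hx⟩ := h7
        obtain ⟨y, hy⟩ := hle
        obtain ⟨z, hz⟩ := hf
        omega
    · -- (2) apex `v`, `a1` not adjacent to the rest
      have hda : ∀ u ∈ seg d s l, u ≠ a1 ∧ ¬ G.Adj a1 u := by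
        rintro u ⟨y, hy1, hy2, rfl⟩
        constructor
        · intro h
          have h5 : y = 0 := hd.inj y 0 hy2 (Nat.zero_le _) (h.trans d0.symm)
          omega
        · intro h
          rw [← d0, hd.adj 0 y (Nat.zero_le _) hy2] at h
          omega
      refine pyrv hs0 a1 hva1 ha12 ?_ ?_ (fun u hu => (hda u hu).2) (fun u hu => (ha1W u hu).2) ?_
        ha1c
      · intro h; exact (hda a1 h).1 rfl
      · intro h; exact (ha1W a1 h).1 rfl
      · exact hDH a1 ha1D g' (Or.inl (hSP _ hg'S))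
  -- construction of `W3`
  obtain ⟨f, hf, f0, fk, hfS⟩ := IP.pf hS
  have hfmem : ∀ x, x ≤ k → f x ∈ S := fun x hx => by rw [hfS]; exact mem_seg (Nat.zero_le _) hx
  by_cases hex : ∃ x, x ≤ k ∧ G.Adj v (f x)
  · let t := Nat.find hex
    have ht1 : t ≤ k := (Nat.find_spec hex).1
    have ht2 : G.Adj v (f t) := (Nat.find_spec hex).2
    have ht3 : ∀ x, x < t → ¬ G.Adj v (f x) := fun x hx h =>
      Nat.find_min hex hx ⟨by omega, h⟩
    have ht0 : 1 ≤ t := by
      by_contra h
      have h2 : t = 0 := by omega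
      rw [h2, f0] at ht2
      exact hvg' ht2
    have hW : IP G t (f t) g' (seg f 0 t) := by
      have := (hf.seg (Nat.zero_le t) ht1).rev
      rwa [f0, Nat.sub_zero] at this
    have hWS : ∀ u ∈ seg f 0 t, u ∈ S := by
      rintro u ⟨x, -, hx, rfl⟩
      exact hfmem x (by omega)
    refine key t (f t) _ hW ht0 (fun u hu => Or.inl (hWS u hu)) ht2 ?_ (Or.inl ?_)
    · rintro u ⟨x, -, hx, rfl⟩ h
      rcases Nat.lt_or_ge x t with h1 | h1
      · exact absurd h (ht3 x h1)
      · rw [show x = t by omega]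
    · intro u hu h
      exact hab3 ((hSb3 u (hWS u hu) a3 haQ).1 h.symm).2
  · have hno : ∀ u ∈ S, ¬ G.Adj v u := by
      intro u hu h
      rw [hfS] at hu
      obtain ⟨x, -, hx, rfl⟩ := hu
      exact hex ⟨x, hx, h⟩
    have hvb3 : G.Adj v b3 := by
      rcases htb with h | h
      · exact absurd h (hno b2 hb2S)
      · exact h
    have hb3S : b3 ∉ S := fun h => hPQ b3 (hSP b3 h) b3 hbQ rfl
    have hW : IP G (k + 1) b3 g' (insert b3 S) := hS.rev.cons hb3S (fun w hw => by
      rw [SimpleGraph.adj_comm, hSb3 w hw b3 hbQ]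
      exact ⟨fun h => h.1, fun h => ⟨h, rfl⟩⟩)
    refine key (k + 1) b3 _ hW (by omega) ?_ hvb3 ?_ (Or.inr ?_)
    · rintro u (h | h)
      · exact Or.inr h
      · exact Or.inl h
    · rintro u (h | h) h2
      · exact h
      · exact absurd h2 (hno u h)
    · have := hcy.hn
      have h2 : k + 1 = n := by omega
      rw [h2]; exact this

end Pool.Agent.H61.ER2
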